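import Pool.Agent.helper13.U4.Spec

set_option autoImplicit false

namespace Pool.Agent.U4

/-- reduction to the times below 40 -/
theorem FH2_red (t : ℕ) (ht : 40 ≤ t) : tb t = tb (32 + (t - 32) % 8) := by
  have h1 : ¬ t < 32 := by omega
  have h2 : ¬ 32 + (t - 32) % 8 < 32 := by omega
  have h3 : 32 + (32 + (t - 32) % 8 - 32) % 8 = 32 + (t - 32) % 8 := by omega
  unfold tb
  rw [if_neg h1, if_neg h2, h3]

/-- a statement about all times -/
theorem FH2_all (P : ℕ → Prop) (r : ℕ) (hP : ∀ t, 40 ≤ t → P t → P (32 + (t - 32) % 8))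
    (h : ∀ t < 40, P t → (tb t).testBit r = true) (t : ℕ) (ht : P t) : (tb t).testBit r = true := by
  by_cases h1 : t < 40
  · exact h t h1 ht
  · rw [FH2_red t (by omega)]
    exact h _ (by omega) (hP t (by omega) ht)

theorem FH2 (h1 : TK2_stmt) : FH2_stmt := by
  intro q v x hP hX
  have hv1 : v + 1 = 2 * 4 * q + 4 := hP.hv
  have hq := hP.hq
  have hx := h1 v x hX (by omega) (by omega)
  have b0 : ∀ t, (12 ≤ t ∧ 4 ≤ t % 8) → (tb t).testBit 8 = true :=
    FH2_all _ 8 (fun t _ h => by omega) (by decide +kernel)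
  have b1 : ∀ t, (4 ≤ t % 8 ∧ t % 2 = 1) → (tb t).testBit 9 = true :=
    FH2_all _ 9 (fun t _ h => by omega) (by decide +kernel)
  have b2 : ∀ t, (12 ≤ t ∧ 4 ≤ t % 8 ∧ t % 2 = 1) → (tb t).testBit 10 = true :=
    FH2_all _ 10 (fun t _ h => by omega) (by decide +kernel)
  have b4 : ∀ t, (16 ≤ t ∧ t % 8 < 4) → (tb t).testBit 12 = true :=
    FH2_all _ 12 (fun t _ h => by omega) (by decide +kernel)
  have b4' : ∀ t, (20 ≤ t ∧ 4 ≤ t % 8 ∧ t % 4 ≤ 1) → (tb t).testBit 12 = true :=
    FH2_all _ 12 (fun t _ h => by omega) (by decide +kernel)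
  have b5 : ∀ t, (16 ≤ t ∧ t % 8 < 4 ∧ t % 2 = 0) → (tb t).testBit 13 = true :=
    FH2_all _ 13 (fun t _ h => by omega) (by decide +kernel)
  have b5' : ∀ t, (12 ≤ t ∧ 4 ≤ t % 8 ∧ t % 4 ≠ 1) → (tb t).testBit 13 = true :=
    FH2_all _ 13 (fun t _ h => by omega) (by decide +kernel)
  have b6 : ∀ t, (17 ≤ t ∧ t % 2 = 0) → (tb t).testBit 14 = true :=
    FH2_all _ 14 (fun t _ h => by omega) (by decide +kernel)
  have b8 : ∀ t, (25 ≤ t ∧ (t % 4 = 0 ∨ t % 4 = 3)) → (tb t).testBit 16 = true :=
    FH2_all _ 16 (fun t _ h => by omega) (by decide +kernel)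
  constructor
  · intro d hd
    rw [hx _ (by omega) _ (by omega)]
    revert d
    decide +kernel
  · intro d hd hd2
    rw [hx _ (by omega) _ (by omega)]
    revert d
    decide +kernel
  · intro B d hB hB2 hd hle
    rw [hx _ hle _ (by omega)]
    exact b0 _ (by omega)
  · intro B d hB hd2 hd hle
    rw [hx _ hle _ (by omega)]
    exact b1 _ (by omega)
  · intro t ht ht'
    rw [hx _ (by omega) _ (by omega)]
    revert t
    decide +kernel
  · intro B d hB hB2 hd2 hd hle
    rw [hx _ hle _ (by omega)]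
    exact b2 _ (by omega)
  · intro t ht ht' ht2
    rw [hx _ (by omega) _ (by omega)]
    have : t = 2 ∨ t = 4 := by omega
    rcases this with rfl | rfl <;> decide +kernel
  · intro d hd
    rw [hx _ (by omega) _ (by omega)]
    revert d
    decide +kernel
  · intro t ht ht' ht2
    rw [hx _ (by omega) _ (by omega)]
    have : t = 2 ∨ t = 4 := by omega
    rcases this with rfl | rfl <;> decide +kernel
  · intro d hd hd2
    rw [hx _ (by omega) _ (by omega)]
    revert d
    decide +kernel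
  · intro d hd hd2
    rw [hx _ (by omega) _ (by omega)]
    revert d
    decide +kernel
  · intro B d hB hB2 hd hle
    rw [hx _ hle _ (by omega)]
    exact b4 _ (by omega)
  · intro B d hB hB2 hd2 hd hle
    rw [hx _ hle _ (by omega)]
    exact b4' _ (by omega)
  · rw [hx _ (by omega) _ (by omega)]
    decide +kernel
  · rw [hx _ (by omega) _ (by omega)]
    decide +kernel
  · intro B d hB hB2 hd2 hd hle
    rw [hx _ hle _ (by omega)]
    exact b5 _ (by omega)
  · intro B d hB hB2 hd2 hd hle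
    rw [hx _ hle _ (by omega)]
    exact b5' _ (by omega)
  · refine ⟨?_, ?_, ?_⟩ <;>
    · rw [hx _ (by omega) _ (by omega)]
      decide +kernel
  · intro t ht hle ht2
    rw [hx _ hle _ (by omega)]
    exact b6 _ (by omega)
  · intro t ht hle ht2
    rw [hx _ hle _ (by omega)]
    exact b8 _ (by omega)
  · rw [hx _ (by omega) _ (by omega)]
    decide +kernel
  · rw [hx _ (by omega) _ (by omega)]
    decide +kernel

end Pool.Agent.U4
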