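import Pool.Agent.helper13.U4.SpecY

set_option autoImplicit false

namespace Pool.Agent.U4

theorem KL6_aux : ∀ u0 u1 u2 u3 u4 u5 u6 u7 u8 u9 u10 : Bool,
    [ex1 u0 u1 u2, ex1 u5 u6 u7, ex1 u7 u8 u9, ex1 u8 u9 u10, u0, u1, u2, u5, u6].count true ≤ 1 →
    ex1 (ex1 u0 u1 u2) (ex1 u1 u2 u3) (ex1 u2 u3 u4) = false →
    ex1 (ex1 u1 u2 u3) (ex1 u2 u3 u4) (ex1 u3 u4 u5) = false →
    ex1 (ex1 u2 u3 u4) (ex1 u3 u4 u5) (ex1 u4 u5 u6) = false →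
    ex1 (ex1 u3 u4 u5) (ex1 u4 u5 u6) (ex1 u5 u6 u7) = false →
    ex1 (ex1 u4 u5 u6) (ex1 u5 u6 u7) (ex1 u6 u7 u8) = false →
    ex1 (ex1 u5 u6 u7) (ex1 u6 u7 u8) (ex1 u7 u8 u9) = false →
    ex1 (ex1 u6 u7 u8) (ex1 u7 u8 u9) (ex1 u8 u9 u10) = false →
    ex1 u0 u1 u2 = false ∧ ex1 u1 u2 u3 = false := by
  decide +kernel

theorem KL6 : KL6_stmt := by
  intro u w hw hc h
  have w0 := hw 0 (by norm_num)
  have w1 := hw 1 (by norm_num)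
  have w2 := hw 2 (by norm_num)
  have w3 := hw 3 (by norm_num)
  have w4 := hw 4 (by norm_num)
  have w5 := hw 5 (by norm_num)
  have w6 := hw 6 (by norm_num)
  have w7 := hw 7 (by norm_num)
  have w8 := hw 8 (by norm_num)
  have h0 := h 0 (by norm_num)
  have h1 := h 1 (by norm_num)
  have h2 := h 2 (by norm_num)
  have h3 := h 3 (by norm_num)
  have h4 := h 4 (by norm_num)
  have h5 := h 5 (by norm_num)
  have h6 := h 6 (by norm_num)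
  norm_num only at w0 w1 w2 w3 w4 w5 w6 w7 w8 h0 h1 h2 h3 h4 h5 h6
  rw [w0, w1, w2] at h0
  rw [w1, w2, w3] at h1
  rw [w2, w3, w4] at h2
  rw [w3, w4, w5] at h3
  rw [w4, w5, w6] at h4
  rw [w5, w6, w7] at h5
  rw [w6, w7, w8] at h6
  rw [w0, w5, w7, w8] at hc
  rw [w0, w1]
  exact KL6_aux _ _ _ _ _ _ _ _ _ _ _ hc h0 h1 h2 h3 h4 h5 h6

end Pool.Agent.U4
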