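import Pool.Agent.helper13.U4.SpecY

set_option autoImplicit false

namespace Pool.Agent.U4

theorem KLB : KLB_stmt := by
  unfold KLB_stmt
  refine ⟨?_, ?_, ?_⟩ <;> decide

end Pool.Agent.U4
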