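import Pool.Agent.helper13.U4.SpecD

set_option autoImplicit false

namespace Pool.Agent.U4

theorem PB_core {k q h v : ℕ} (hP : Par k q h v) (x : ℕ → ℕ → Bool) (hL : FL h q v x) {b e τ c r1 r2 : ℕ}
    (hb : b ≤ 7) (he : e < h) (hc : 8 ≤ c) (hc9 : c ≤ 9)
    (hsum : ∀ a g, a ≤ 2 * q → g < h → 1 ≤ a + b →
      ((2 * q - a) * h + (h - 1 - g)) + ((b + a - 1) * h + (e + g)) = τ)
    (hr1 : r1 + 2 ≤ 2 * h) (hr1' : r1 % 4 ≠ 3) (hr : r1 < r2)
    (hu1 : x ((c - 1) * h + e) r2 = true) (hu2 : x ((c + 1) * h + e) r2 = true) : Pr2 v x (r1 + r2) τ := by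
  have hv := hP.hv
  have hq := hP.hq
  have h1 : h * 7 ≤ h * q := Nat.mul_le_mul_left h hq
  have h2 : 2 * h * q = 2 * (h * q) := by ring
  have hB : 2 * q - (c - b) = (2 * q - (c + 2 - b)) + 2 := by omega
  have hB2 : (2 * q - (c + 2 - b)) + 3 ≤ 2 * q := by omega
  have hB1 : 1 ≤ 2 * q - (c + 2 - b) := by omega
  set B := 2 * q - (c + 2 - b) with hBdef
  have h3 : B * h + 3 * h ≤ 2 * (h * q) := by
    calc B * h + 3 * h = (B + 3) * h := by ring
      _ ≤ (2 * q) * h := Nat.mul_le_mul_right h hB2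
      _ = 2 * (h * q) := by ring
  have h4 : (B + 2) * h = B * h + 2 * h := by ring
  have s1 := hsum (c - b) 0 (by omega) (by omega) (by omega)
  have s2 := hsum (c + 2 - b) 0 (by omega) (by omega) (by omega)
  have e1 : b + (c - b) - 1 = c - 1 := by omega
  have e2 : b + (c + 2 - b) - 1 = c + 1 := by omega
  rw [hB, e1, Nat.sub_zero, Nat.add_zero] at s1
  rw [← hBdef, e2, Nat.sub_zero, Nat.add_zero] at s2
  have h5 : (c + 1) * h ≤ 10 * h := Nat.mul_le_mul_right h (by omega)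
  have h6 : (c - 1) * h ≤ 8 * h := Nat.mul_le_mul_right h (by omega)
  refine ⟨r1, r2, (B + 2) * h + (h - 1), (c - 1) * h + e, B * h + (h - 1), (c + 1) * h + e, hr.ne, ?_, rfl, s1, s2,
    ?_, ?_, ?_, ?_, ?_, hu1, ?_, hu2⟩
  · omega
  · omega
  · omega
  · omega
  · omega
  · exact hL.fd (B + 2) r1 (by omega) (by omega) hr1 hr1'
  · exact hL.fd B r1 hB1 (by omega) hr1 hr1'

theorem PB (h1 : PRM_stmt) : PB_stmt := by
  intro k q h v x hP hL hH P τ hτ hτ' hPh hP4
  obtain ⟨b, e, hb, he, hs, -, -, hsum⟩ := h1 k q h v hP τ hτ hτ'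
  have hv := hP.hv
  have hq := hP.hq
  have hheven : ∃ j, h = 4 * j := by
    have h2 := hP.hk
    refine ⟨2 ^ (k - 2), ?_⟩
    rw [hP.hh, show (4 : ℕ) = 2 ^ 2 by norm_num, ← pow_add]
    congr 1
    omega
  obtain ⟨j, hj⟩ := hheven
  have hqh : h * 7 ≤ h * q := Nat.mul_le_mul_left h hq
  have h2 : 2 * h * q = 2 * (h * q) := by ring
  have hbh : b * h = 2 * (b * (2 * j)) := by
    rw [hj]
    ring
  constructor
  · intro hpar hPle
    have he2 : e % 2 = 0 := by omega
    have h3 : P = (P - 2 * h - 5) + (2 * h + 5) := by omega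
    rw [h3]
    refine PB_core hP x hL (c := 9) hb he (by norm_num) le_rfl hsum (by omega) (by omega) (by omega) ?_ ?_
    · exact hH.b5 8 e (by norm_num) (by norm_num) he2 he (by omega)
    · exact hH.b5 10 e (by norm_num) (by norm_num) he2 he (by omega)
  · intro hpar hPle
    have he2 : e % 2 = 1 := by omega
    have h3 : P = (P - 2 * h - 1) + (2 * h + 1) := by omega
    rw [h3]
    refine PB_core hP x hL (c := 8) hb he le_rfl (by norm_num) hsum (by omega) (by omega) (by omega) ?_ ?_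
    · exact hH.b1 7 e (by norm_num) he2 he (by omega)
    · exact hH.b1 9 e (by norm_num) he2 he (by omega)

end Pool.Agent.U4
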