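import Pool.Agent.helper13.U4.Spec

set_option autoImplicit false

namespace Pool.Agent.U4

theorem XOF_odd (v : ℕ) (F : ℤ → Bool) (hF : IsF v F) :
    ∀ (n : ℕ) (m : ℤ), m ≤ n → m ≤ v → m % 2 = 1 → F m = false := by
  intro n
  induction n with
  | zero =>
    intro m hm _ hm2
    exact hF.neg m (by omega)
  | succ n ih =>
    intro m hm hmv hm2
    rcases lt_or_ge m 0 with h | h
    · exact hF.neg m h
    · have hpos : m > 0 := by omega
      rw [hF.recF m hpos, ih (m - 2) (by omega) (by omega) (by omega), hF.neg (m - v - 2) (by omega),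
        hF.neg (m - 2 * v - 2) (by omega)]
      rfl

theorem XOF_odd' (v : ℕ) (F : ℤ → Bool) (hF : IsF v F) (m : ℤ) (hmv : m ≤ v) (hm2 : m % 2 = 1) :
    F m = false := XOF_odd v F hF m.toNat m (by omega) hmv hm2

theorem XOF : XOF_stmt := by
  intro v F hv hF
  have hv' : (v : ℤ) % 2 = 1 := by omega
  constructor
  · unfold xF
    simpa using hF.zero
  · unfold xF
    have : (v : ℤ) * ((1 : ℕ) : ℤ) + 2 * ((0 : ℕ) : ℤ) = v := by
      push_cast
      ring
    rw [this]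
    exact XOF_odd' v F hF v le_rfl hv'
  · intro t ht
    unfold xF
    have e0 : (v : ℤ) * ((0 : ℕ) : ℤ) + 2 * ((t + 1 : ℕ) : ℤ) = 2 * t + 2 := by
      push_cast
      ring
    have e1 : (v : ℤ) * ((0 : ℕ) : ℤ) + 2 * (t : ℤ) = 2 * t := by
      push_cast
      ring
    rw [e0, e1, hF.recF _ (by omega)]
    have e2 : (2 : ℤ) * t + 2 - 2 = 2 * t := by ring
    rw [e2, XOF_odd' v F hF (2 * t + 2 - v - 2) (by omega) (by omega), hF.neg (2 * t + 2 - 2 * v - 2) (by omega)]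
    cases F (2 * t) <;> rfl
  · intro t ht
    unfold xF
    have e0 : (v : ℤ) * ((1 : ℕ) : ℤ) + 2 * ((t + 1 : ℕ) : ℤ) = v + 2 * t + 2 := by
      push_cast
      ring
    have e1 : (v : ℤ) * ((1 : ℕ) : ℤ) + 2 * (t : ℤ) = v + 2 * t := by
      push_cast
      ring
    have e3 : (v : ℤ) * ((0 : ℕ) : ℤ) + 2 * (t : ℤ) = 2 * t := by
      push_cast
      ring
    rw [e0, e1, e3, hF.recF _ (by omega)]
    have e2 : (v : ℤ) + 2 * t + 2 - 2 = v + 2 * t := by ring
    have e4 : (v : ℤ) + 2 * t + 2 - v - 2 = 2 * t := by ring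
    rw [e2, e4, XOF_odd' v F hF (v + 2 * t + 2 - 2 * v - 2) (by omega) (by omega)]
  · intro t ht r
    unfold xF
    have e0 : (v : ℤ) * ((r + 2 : ℕ) : ℤ) + 2 * ((t + 1 : ℕ) : ℤ) = v * r + 2 * v + 2 * t + 2 := by
      push_cast
      ring
    have e1 : (v : ℤ) * ((r + 2 : ℕ) : ℤ) + 2 * (t : ℤ) = v * r + 2 * v + 2 * t + 2 - 2 := by
      push_cast
      ring
    have e2 : (v : ℤ) * ((r + 1 : ℕ) : ℤ) + 2 * (t : ℤ) = v * r + 2 * v + 2 * t + 2 - v - 2 := by
      push_cast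
      ring
    have e3 : (v : ℤ) * (r : ℤ) + 2 * (t : ℤ) = v * r + 2 * v + 2 * t + 2 - 2 * v - 2 := by
      ring
    have hpos : (v : ℤ) * r + 2 * v + 2 * t + 2 > 0 := by positivity
    rw [e0, e1, e2, e3, hF.recF _ hpos]
  · intro r
    unfold xF
    have e0 : (v : ℤ) * (r : ℤ) + 2 * (v : ℤ) = (v : ℤ) * ((r + 2 : ℕ) : ℤ) + 2 * ((0 : ℕ) : ℤ) := by
      push_cast
      ring
    rw [e0]

end Pool.Agent.U4
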