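import Pool.Agent.helper13.U4.Spec

set_option autoImplicit false

namespace Pool.Agent.U4

theorem YRC : YRC_stmt := by
  intro v F hF s t r
  constructor
  · intro hpos
    unfold yF
    rw [hF.recF _ hpos]
    have e1 : s - (v : ℤ) * r - 2 * t - 2 = s - (v : ℤ) * r - 2 * ((t + 1 : ℕ) : ℤ) := by
      push_cast
      ring
    have e2 : s - (v : ℤ) * r - 2 * t - v - 2 = s - (v : ℤ) * ((r + 1 : ℕ) : ℤ) - 2 * ((t + 1 : ℕ) : ℤ) := by
      push_cast
      ring
    have e3 : s - (v : ℤ) * r - 2 * t - 2 * v - 2 =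
        s - (v : ℤ) * ((r + 2 : ℕ) : ℤ) - 2 * ((t + 1 : ℕ) : ℤ) := by
      push_cast
      ring
    rw [e1, e2, e3]
  · unfold yF
    have e1 : s - (v : ℤ) * r - 2 * v = s - (v : ℤ) * ((r + 2 : ℕ) : ℤ) - 2 * ((0 : ℕ) : ℤ) := by
      push_cast
      ring
    rw [e1]

end Pool.Agent.U4
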